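import Pool.Agent.H361R2.PA.First

set_option autoImplicit false
set_option maxHeartbeats 4000000

/-! # Sums prime + element of a finite set: a small set can be avoided -/

namespace Pool.Agent.X5.FE

open Finset Filter

open scoped Classical

theorem avoid (Q : ℕ) (hQ : 0 < Q) (r : ℤ) : ∃ c : ℝ, 0 < c ∧ ∃ X₀ : ℝ, ∀ X : ℝ, X₀ ≤ X →
    ∀ S : Finset ℕ, (S.card : ℝ) ≤ c * (Real.log X * Real.log (Real.log X)) →
    ∃ n : ℕ, X < n ∧ (n : ℝ) ≤ 2 * X ∧
      (∀ q : ℕ, q.Prime → q ∣ Q → (q : ℤ) ∣ (n : ℤ) - r) ∧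
      ∀ p t : ℕ, p.Prime → p + t = n → t ∉ S := by
  obtain ⟨c, hc, X₀, h⟩ := Pool.Agent.H361R2.PA.arbitrary_mod 2 Q hQ
  have hev : ∃ X₁ : ℝ, ∀ X : ℝ, X₁ ≤ X → 8 ≤ X ∧ 2 ≤ Real.log X := by
    have t2 := Real.tendsto_log_atTop
    have hh := (eventually_ge_atTop (8 : ℝ)).and (t2.eventually_ge_atTop 2)
    obtain ⟨X₁, hX₁⟩ := eventually_atTop.1 hh
    exact ⟨X₁, fun X hX => hX₁ X hX⟩
  obtain ⟨X₁, hX₁⟩ := hev
  refine ⟨c, hc, max X₀ X₁, fun X hX S₀ hS₀ => ?_⟩
  have hX0 : X₀ ≤ X := (le_max_left _ _).trans hX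
  obtain ⟨b1, b2⟩ := hX₁ X ((le_max_right _ _).trans hX)
  set S : Finset ℕ := S₀.filter (fun t => (t : ℝ) ≤ 2 * X) with hS
  have hScard : (S.card : ℝ) ≤ c * (Real.log X * Real.log (Real.log X)) := by
    refine le_trans ?_ hS₀
    exact_mod_cast card_filter_le _ _
  set A : Finset ℤ := S.image (fun t : ℕ => -(t : ℤ)) with hA
  have hAcard : (A.card : ℝ) ≤ c * (Real.log X * Real.log (Real.log X)) := by
    refine le_trans ?_ hScard
    exact_mod_cast card_image_le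
  obtain ⟨n, hn1, hn2, hn3, hn4⟩ := h X hX0 A hAcard (by
    intro a ha
    rw [hA, mem_image] at ha
    obtain ⟨t, ht, rfl⟩ := ha
    rw [hS, mem_filter] at ht
    have h1 : (t : ℝ) ≤ 2 * X := ht.2
    push_cast
    rw [abs_neg, abs_of_nonneg (Nat.cast_nonneg t)]
    have h2 : 2 * X ≤ Real.exp (Real.log X ^ 2) := by
      have hXpos : 0 < X := by linarith
      have h3 : 2 * X ≤ X * X := by nlinarith
      have h4 : X * X = Real.exp (2 * Real.log X) := by
        rw [two_mul, Real.exp_add, Real.exp_log hXpos]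
      have h5 : 2 * Real.log X ≤ Real.log X ^ 2 := by nlinarith
      calc 2 * X ≤ X * X := h3
        _ = Real.exp (2 * Real.log X) := h4
        _ ≤ _ := Real.exp_le_exp.2 h5
    linarith) r ⌊X⌋
  have hfl := Int.floor_le X
  have hfl2 := Int.lt_floor_add_one X
  have hXn : X < n := by linarith
  have hn2X : (n : ℝ) ≤ 2 * X := by linarith
  have hn0 : 0 ≤ n := by
    have : (0 : ℝ) < n := by linarith
    have h5 : (0 : ℤ) < n := by exact_mod_cast this
    omega
  have hcast : ((n.toNat : ℕ) : ℤ) = n := Int.toNat_of_nonneg hn0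
  have hcastR : ((n.toNat : ℕ) : ℝ) = n := by exact_mod_cast hcast
  refine ⟨n.toNat, by rw [hcastR]; exact hXn, by rw [hcastR]; exact hn2X, ?_, ?_⟩
  · rw [hcast]; exact hn3
  · intro p t hp hpt hPt
    have htS : t ∈ S := by
      rw [hS, mem_filter]
      refine ⟨hPt, ?_⟩
      have h2 : t ≤ n.toNat := by omega
      have h3 : (t : ℝ) ≤ ((n.toNat : ℕ) : ℝ) := by exact_mod_cast h2
      rw [hcastR] at h3
      linarith
    apply hn4 (-(t : ℤ)) (by rw [hA]; exact mem_image_of_mem _ htS)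
    have h5 : n + -(t : ℤ) = p := by
      rw [← hcast, ← hpt]; push_cast; ring
    rw [h5]
    exact Nat.prime_iff_prime_int.1 hp

/-- sequences: the first `M / 2 ^ i` terms of the `i`-th sequence are avoided for all `i` -/
theorem avoid_seqs (Q : ℕ) (hQ : 0 < Q) (r : ℤ) : ∃ c : ℝ, 0 < c ∧ ∃ X₀ : ℝ, ∀ X : ℝ, X₀ ≤ X →
    ∀ s : ℕ → ℕ → ℕ, ∃ n : ℕ, X < n ∧ (n : ℝ) ≤ 2 * X ∧
      (∀ q : ℕ, q.Prime → q ∣ Q → (q : ℤ) ∣ (n : ℤ) - r) ∧
      ∀ i u p : ℕ, 1 ≤ u → p.Prime → p + s i u = n →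
        c * (Real.log X * Real.log (Real.log X)) / 2 ^ i < u := by
  obtain ⟨c, hc, X₀, h⟩ := avoid Q hQ r
  refine ⟨c / 2, by positivity, max X₀ (Real.exp (Real.exp 1)), fun X hX s => ?_⟩
  have hX0 : X₀ ≤ X := (le_max_left _ _).trans hX
  have hX1 : Real.exp (Real.exp 1) ≤ X := (le_max_right _ _).trans hX
  have hXpos : 0 < X := (Real.exp_pos _).trans_le hX1
  have hL : Real.exp 1 ≤ Real.log X := by
    rw [← Real.log_exp (Real.exp 1)]
    exact Real.log_le_log (Real.exp_pos _) hX1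
  have hl : 1 ≤ Real.log (Real.log X) := by
    rw [← Real.log_exp 1]
    exact Real.log_le_log (Real.exp_pos _) hL
  have hLp : 0 < Real.log X := (Real.exp_pos _).trans_le hL
  set M : ℝ := c / 2 * (Real.log X * Real.log (Real.log X)) with hM
  have hM0 : 0 ≤ M := by positivity
  set I : ℕ := ⌊M⌋₊ + 1 with hI
  set S : Finset ℕ := (range I).biUnion (fun i => (Icc 1 ⌊M / 2 ^ i⌋₊).image (fun u => s i u)) with hS
  have hcard : (S.card : ℝ) ≤ c * (Real.log X * Real.log (Real.log X)) := by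
    have h1 : S.card ≤ ∑ i ∈ range I, ⌊M / 2 ^ i⌋₊ := by
      refine card_biUnion_le.trans (sum_le_sum fun i _ => ?_)
      refine card_image_le.trans ?_
      rw [Nat.card_Icc, Nat.add_sub_cancel]
    have h2 : (S.card : ℝ) ≤ ∑ i ∈ range I, M * (1 / 2 : ℝ) ^ i := by
      have : (S.card : ℝ) ≤ ((∑ i ∈ range I, ⌊M / 2 ^ i⌋₊ : ℕ) : ℝ) := by exact_mod_cast h1
      refine this.trans ?_
      push_cast
      apply sum_le_sum
      intro i _
      have := Nat.floor_le (show 0 ≤ M / 2 ^ i by positivity)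
      rw [one_div, inv_pow]
      rwa [div_eq_mul_inv] at this
    have h3 : ∑ i ∈ range I, M * (1 / 2 : ℝ) ^ i ≤ M * 2 := by
      rw [← mul_sum]
      apply mul_le_mul_of_nonneg_left _ hM0
      exact sum_geometric_two_le I
    have h4 : M * 2 = c * (Real.log X * Real.log (Real.log X)) := by rw [hM]; ring
    linarith
  obtain ⟨n, hn1, hn2, hn3, hn4⟩ := h X hX0 S hcard
  refine ⟨n, hn1, hn2, hn3, ?_⟩
  intro i u p hu hp hpn
  by_contra hcon
  push Not at hcon
  apply hn4 p (s i u) hp hpn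
  rw [hS, mem_biUnion]
  have h5 : (1 : ℝ) ≤ u := by exact_mod_cast hu
  refine ⟨i, ?_, ?_⟩
  · rw [mem_range, hI]
    have h1 : (2 : ℝ) ^ i ≤ M := by
      have h6 : 1 ≤ M / 2 ^ i := by
        by_contra hlt
        push Not at hlt
        have h7 : (0 : ℝ) < 2 ^ i := by positivity
        -- u ≥ 1 > M/2^i contradicts? 
        linarith
      rwa [one_le_div (by positivity)] at h6
    have h2 : i < 2 ^ i := Nat.lt_two_pow_self
    have h3 : (i : ℝ) ≤ M := by
      have : (i : ℝ) ≤ 2 ^ i := by exact_mod_cast h2.le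
      linarith
    have := Nat.le_floor h3
    omega
  · rw [mem_image]
    exact ⟨u, by rw [mem_Icc]; exact ⟨hu, Nat.le_floor hcon⟩, rfl⟩

end Pool.Agent.X5.FE
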